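import Pool.Agent.U426.PB.B
import Pool.Agent.TH188.ARC.A18

/-!
# Lowering the level for infinite families, with domination
-/

set_option autoImplicit false
set_option linter.unusedVariables false
set_option linter.unusedSectionVars false

namespace Pool.Agent.U426.PC

open IsLocalRing Pool.Agent.TH188.QS Pool.Agent.W418.LU2 Pool.Agent.H918R2.Quad
  Pool.Agent.TH188.ARC Pool.Agent.U426.PA Pool.Agent.U426.PB

variable {O F : Type} [CommRing O] [Field F] [Algebra O F]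

/-- A closed centre has no proper specializations. -/
lemma sp_symm {M : Submodule O F} {W V : ValuationSubring F}
    (hOW : ∀ o, algebraMap O F o ∈ W) (hOV : ∀ o, algebraMap O F o ∈ V)
    (hmax : ∀ j ∈ M, j ≠ 0 → (∀ m ∈ M, m / j ∈ V) → ∀ b ∈ chart O M j, ¬ V.valuation b < 1 →
      ∃ c ∈ chart O M j, V.valuation (b * c - 1) < 1)
    (h : Sp M W V) : Sp M V W := by
  obtain ⟨j, hj, hj0, hjW, hjV, hb⟩ := h
  refine ⟨j, hj, hj0, hjV, hjW, fun b hbc hbW => ?_⟩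
  by_contra hbV
  obtain ⟨c, hc, hbc1⟩ := hmax j hj hj0 hjV b hbc hbV
  have h1 := hb _ (Subalgebra.sub_mem _ (Subalgebra.mul_mem _ hbc hc) (Subalgebra.one_mem _)) hbc1
  have h2 : W.valuation (b * c) < 1 := by
    rw [map_mul, mul_comm]
    exact mul_lt_one_aux ((W.valuation_le_one_iff _).2 (chart_le_V hOW hjW hc)) hbW
  have h3 : W.valuation (1 : F) < 1 := by
    have h4 : (1 : F) = b * c - (b * c - 1) := by ring
    rw [h4]
    exact (Valuation.map_sub _ _ _).trans_lt (max_lt h2 h1)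
  rw [map_one] at h3
  exact lt_irrefl _ h3

/-- One step at `V` with closed centre: the effect on all the local rings. -/
theorem step_dm [IsNoetherianRing O] [IsDomain O] {V : ValuationSubring F}
    (hOV : ∀ o, algebraMap O F o ∈ V) {ϖ : O} (hϖ0 : algebraMap O F ϖ ≠ 0)
    (hϖ : V.valuation (algebraMap O F ϖ) < 1) {M : Submodule O F} (hM : M.FG) {QV : Subring F}
    (hQV : LR V M QV)
    (hmax : ∀ j ∈ M, j ≠ 0 → (∀ m ∈ M, m / j ∈ V) → ∀ b ∈ chart O M j, ¬ V.valuation b < 1 →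
      ∃ c ∈ chart O M j, V.valuation (b * c - 1) < 1) :
    ∃ (D : ℕ) (M' : Submodule O F), 1 ≤ D ∧ M'.FG ∧ M' ≤ M ^ D ∧
      (∀ y ∈ M ^ D, ϖ • y ∈ M') ∧ (∃ g ∈ M', g ≠ 0) ∧
      (∀ W : ValuationSubring F, (∀ o, algebraMap O F o ∈ W) → ∀ Q, LR W M Q →
        (Q = QV → (∃ e, Mi W.toSubring Q e) ∧ Q ≤ W.toSubring ∧ IC W.toSubring Q ∧
          LR W M' (qt W.toSubring Q)) ∧
        (Q ≠ QV → LR W M' Q)) ∧
      ∀ W : ValuationSubring F, (∀ o, algebraMap O F o ∈ W) → Dm W M M' := by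
  obtain ⟨D, M', h1, h2, h3, h4, h5, h6, -, h7⟩ := gstep' hOV hϖ0 hϖ hM hQV
  refine ⟨D, M', h1, h2, h3, h4, h5, fun W hOW Q hQ => ⟨(h6 W hOW Q hQ).1, fun hne => ?_⟩, h7⟩
  refine (h6 W hOW Q hQ).2 hne fun hsp => hne ?_
  exact (hsp.lr hOW hOV (sp_symm hOW hOV hmax hsp) hQ).unique hOV hQV

theorem lower_level' [IsNoetherianRing O] [IsDomain O] {M₀ : Submodule O F}
    {𝓕 : Set (ValuationSubring F)} (h𝓕 : Fam M₀ 𝓕) {D : ℕ} {M : Submodule O F} (hM : Cm M₀ D M)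
    {n : ℕ} (hlv : ∀ W ∈ 𝓕, Lv W M (n + 1))
    (hfin : {Q : Subring F | ∃ W ∈ 𝓕, ¬ Lv W M n ∧ LR W M Q}.Finite) :
    ∃ (D' : ℕ) (M' : Submodule O F), Cm M₀ D' M' ∧ (∀ W ∈ 𝓕, Lv W M' n) ∧
      (∀ W ∈ 𝓕, ∀ k, Lv W M k → Lv W M' k) ∧ ∀ W ∈ 𝓕, Dm W M M' := by
  classical
  have key : ∀ T : Finset (Subring F), (∀ Q ∈ T, ∃ W ∈ 𝓕, ¬ Lv W M n ∧ LR W M Q) →
      ∃ (D' : ℕ) (M' : Submodule O F), Cm M₀ D' M' ∧
        (∀ W ∈ 𝓕, ∀ Q, LR W M Q → (Q ∈ T → Lv W M' n) ∧ (Q ∉ T → LR W M' Q)) ∧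
        (∀ W ∈ 𝓕, ∀ k, Lv W M k → Lv W M' k) ∧ ∀ W ∈ 𝓕, Dm W M M' := by
    intro T
    induction T using Finset.induction_on with
    | empty =>
      intro _
      exact ⟨D, M, hM, fun W hW Q hQ => ⟨fun h => absurd h (Finset.notMem_empty _), fun _ => hQ⟩,
        fun W _ k h => h, fun W _ Q hQ => ⟨Q, hQ, le_rfl⟩⟩
    | insert Q₀ T hQ₀T ih =>
      intro hT
      obtain ⟨D₁, M₁, hM₁, h1, h2, hd₁⟩ := ih fun Q hQ => hT Q (Finset.mem_insert_of_mem hQ)
      obtain ⟨V, hV, hVn, hVQ⟩ := hT Q₀ (Finset.mem_insert_self _ _)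
      have hVQ₁ : LR V M₁ Q₀ := (h1 V hV Q₀ hVQ).2 hQ₀T
      obtain ⟨ϖ, hϖ0, hϖ⟩ := h𝓕.pos V hV
      obtain ⟨D₂, M₂, hD₂, hM₂, hle₂, hϖ₂, hne₂, hst, hdm⟩ := step_dm (h𝓕.O_mem V hV) hϖ0 hϖ
        hM₁.fg hVQ₁ (h𝓕.max V hV D₁ M₁ hM₁)
      refine ⟨D₁ * D₂, M₂, cm_step hM₁ hD₂ hM₂ hle₂ hϖ0 hϖ₂ hne₂, ?_, ?_, ?_⟩
      · intro W hW Q hQ
        have hOW := h𝓕.O_mem W hW
        have hs := hst W hOW
        refine ⟨fun hQT => ?_, fun hQT => ?_⟩
        · by_cases hc : Q ∈ T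
          · exact (lv_step hOW hs ((h1 W hW Q hQ).1 hc)).1
          · -- `Q = Q₀`
            have hQQ : Q = Q₀ := by
              rcases Finset.mem_insert.1 hQT with h | h
              · exact h
              · exact absurd h hc
            subst hQQ
            have hWQ₁ : LR W M₁ Q := (h1 W hW Q hQ).2 hc
            -- the level on `M₁`
            obtain ⟨Q', hQ', m, hm, hr⟩ := hlv W hW
            have hQQ' : Q' = Q := hQ'.unique hOW hQ
            subst hQQ'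
            have h3 : Lv W M₁ (n + 1) := ⟨_, hWQ₁, m, hm, hr⟩
            have h4 := (lv_step hOW hs h3).2 hWQ₁
            exact h4
        · have hQ1 : Q ∉ T := fun h => hQT (Finset.mem_insert_of_mem h)
          have hQ2 : Q ≠ Q₀ := fun h => hQT (h ▸ Finset.mem_insert_self _ _)
          exact (hs Q ((h1 W hW Q hQ).2 hQ1)).2 hQ2
      · intro W hW k hWn
        exact (lv_step (h𝓕.O_mem W hW) (hst W (h𝓕.O_mem W hW)) (h2 W hW k hWn)).1
      · intro W hW
        exact (hd₁ W hW).trans (hdm W (h𝓕.O_mem W hW))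
  obtain ⟨D', M', hM', h1, h2, h3⟩ := key hfin.toFinset (fun Q hQ => by
    rw [Set.Finite.mem_toFinset] at hQ
    exact hQ)
  refine ⟨D', M', hM', fun W hW => ?_, h2, h3⟩
  by_cases hc : Lv W M n
  · exact h2 W hW n hc
  · obtain ⟨Q, hQ, -⟩ := hlv W hW
    refine (h1 W hW Q hQ).1 ?_
    rw [Set.Finite.mem_toFinset]
    exact ⟨W, hW, hc, hQ⟩

/-- Lowering the level to zero. -/
theorem level_zero' [IsNoetherianRing O] [IsDomain O] {M₀ : Submodule O F}
    {𝓕 𝓖 : Set (ValuationSubring F)} (h𝓕 : Fam M₀ 𝓕)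
    (hfin : ∀ (D : ℕ) (M : Submodule O F), Cm M₀ D M →
      {Q : Subring F | ∃ W ∈ 𝓕, W ∈ 𝓖 ∧ LR W M Q}.Finite)
    (n : ℕ) : ∀ {D : ℕ} {M : Submodule O F}, Cm M₀ D M → (∀ W ∈ 𝓕, Lv W M n) →
    (∀ W ∈ 𝓕, W ∉ 𝓖 → Lv W M 0) →
    ∃ (D' : ℕ) (M' : Submodule O F), Cm M₀ D' M' ∧ (∀ W ∈ 𝓕, Lv W M' 0) ∧
      ∀ W ∈ 𝓕, Dm W M M' := by
  induction n with
  | zero => exact fun {D M} hM h _ => ⟨D, M, hM, h, fun W _ Q hQ => ⟨Q, hQ, le_rfl⟩⟩
  | succ n ih =>
    intro D M hM h hg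
    obtain ⟨D', M', hM', h', h'', hd⟩ := lower_level' h𝓕 hM h
      ((hfin D M hM).subset fun Q hQ => by
        obtain ⟨W, hW, hWn, hQ⟩ := hQ
        refine ⟨W, hW, ?_, hQ⟩
        by_contra hWG
        apply hWn
        obtain ⟨Q', hQ', m, hm, hr⟩ := hg W hW hWG
        exact ⟨Q', hQ', m, by omega, hr⟩)
    obtain ⟨D'', M'', h1, h2, h3⟩ := ih hM' h' fun W hW hWG => h'' W hW 0 (hg W hW hWG)
    exact ⟨D'', M'', h1, h2, fun W hW => (hd W hW).trans (h3 W hW)⟩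

/-- Finitely many centres with bounded residue fields, for rings of finite type over the
integers. -/
theorem finite_centres' [Algebra.FiniteType ℤ O] {M : Submodule O F} (hM : M.FG)
    (hne : ∃ g ∈ M, g ≠ 0)
    {N : ℕ} (hN : N ≠ 0) (C : ℕ) (𝓖 : Set (ValuationSubring F))
    (hO : ∀ W ∈ 𝓖, ∀ o, algebraMap O F o ∈ W) (hNW : ∀ W ∈ 𝓖, W.valuation (N : F) < 1)
    (hq : ∀ W ∈ 𝓖, ∃ q, 2 ≤ q ∧ q ≤ C ∧ ∀ b ∈ W, W.valuation (b ^ q - b) < 1) :
    {Q : Subring F | ∃ W ∈ 𝓖, LR W M Q}.Finite := by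
  classical
  obtain ⟨G, hG⟩ := hM
  obtain ⟨g, hg, hg0⟩ := hne
  have hft : ∀ j : F, Algebra.FiniteType ℤ (chart O M j) := by
    intro j
    have h1 : chart O M j = Algebra.adjoin O ((fun m => m / j) '' (G : Set F)) := by
      apply le_antisymm
      · refine Algebra.adjoin_le ?_
        rintro _ ⟨m, hm, rfl⟩
        change m / j ∈ Algebra.adjoin O ((fun m => m / j) '' (G : Set F))
        rw [← hG] at hm
        induction hm using Submodule.span_induction with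
        | mem m hm => exact Algebra.subset_adjoin ⟨m, hm, rfl⟩
        | zero => rw [zero_div]; exact Subalgebra.zero_mem _
        | add a b _ _ ha hb => rw [add_div]; exact Subalgebra.add_mem _ ha hb
        | smul c a _ ha => rw [smul_div_assoc]; exact Subalgebra.smul_mem _ ha c
      · refine Algebra.adjoin_mono ?_
        rintro _ ⟨m, hm, rfl⟩
        exact ⟨m, hG ▸ Submodule.subset_span hm, rfl⟩
    have h2 : Algebra.FiniteType O (chart O M j) := by
      rw [h1]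
      exact (Subalgebra.fg_iff_finiteType _).1 (Subalgebra.fg_def.2
        ⟨_, G.finite_toSet.image _, rfl⟩)
    exact Algebra.FiniteType.trans (S := O) inferInstance h2
  let st : (j : F) → Ideal (chart O M j) → Set F := fun j P =>
    {x | ∃ a b : chart O M j, b ∉ P ∧ x = (a : F) * (b : F)⁻¹}
  have hfin : (⋃ j ∈ G, ⋃ q ∈ Finset.Icc 2 C, (st j) ''
      {P : Ideal (chart O M j) | (N : chart O M j) ∈ P ∧ ∀ b : chart O M j, b ^ q - b ∈ P}).Finite := by
    refine Set.Finite.biUnion G.finite_toSet fun j _ => ?_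
    refine Set.Finite.biUnion (Finset.Icc 2 C).finite_toSet fun q hq' => ?_
    have hq2 : 2 ≤ q := (Finset.mem_Icc.1 hq').1
    have := hft j
    exact (finite_ideals (O := ℤ) hN hq2).image _
  refine Set.Finite.of_finite_image (f := fun Q : Subring F => (Q : Set F)) (hfin.subset ?_)
    (SetLike.coe_injective.injOn)
  rintro _ ⟨Q, ⟨W, hW, gW, hgW, hgW0, hMgW, rfl⟩, rfl⟩
  obtain ⟨j, hjG, hj0, hMW⟩ := exists_gen_max' (hO W hW) hG hg hg0
  have hjM : j ∈ M := by rw [← hG]; exact Submodule.subset_span hjG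
  obtain ⟨q, hq2, hqC, hqW⟩ := hq W hW
  have hBW := chart_le_V (hO W hW) hMW
  rw [lo_chart_eq (hO W hW) hgW hgW0 hjM hj0 hMgW hMW]
  simp only [Set.mem_iUnion]
  let P : Ideal (chart O M j) :=
    { carrier := {b | W.valuation (b : F) < 1}
      zero_mem' := by
        change W.valuation ((0 : chart O M j) : F) < 1
        rw [ZeroMemClass.coe_zero, map_zero]; exact zero_lt_one
      add_mem' := fun {a b} ha hb => by
        change W.valuation ((a + b : chart O M j) : F) < 1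
        exact Valuation.map_add_lt _ ha hb
      smul_mem' := fun c a ha => by
        change W.valuation ((c * a : chart O M j) : F) < 1
        rw [Subalgebra.coe_mul, map_mul]
        exact mul_lt_one_aux ((W.valuation_le_one_iff _).2 (hBW c.2)) ha }
  refine ⟨j, hjG, q, Finset.mem_Icc.2 ⟨hq2, hqC⟩, P, ⟨?_, ?_⟩, ?_⟩
  · have h1 : W.valuation ((N : chart O M j) : F) < 1 := by
      have : ((N : chart O M j) : F) = (N : F) := by norm_cast
      rw [this]
      exact hNW W hW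
    exact h1
  · intro b
    exact hqW b (hBW b.2)
  · ext x
    constructor
    · rintro ⟨a, b, hb, rfl⟩
      have hb1 : ¬ W.valuation (b : F) < 1 := hb
      have hb0 : (b : F) ≠ 0 := by
        intro h
        apply hb1
        rw [h, map_zero]
        exact zero_lt_one
      rw [val_lt_iff hb0, not_not] at hb1
      exact ⟨a, a.2, b, b.2, hb0, hb1, rfl⟩
    · rintro ⟨a, ha, b, hb, hb0, hbi, rfl⟩
      refine ⟨⟨a, ha⟩, ⟨b, hb⟩, ?_, rfl⟩
      intro h
      have h1 : W.valuation b < 1 := h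
      exact (val_lt_iff hb0).1 h1 hbi

end Pool.Agent.U426.PC
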