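import Pool.Agent.U426.PC.A
import Pool.Agent.TH188.ARC.A19

/-!
# One blowing up for all discrete valuations with bounded residue field and bounded contact
-/

set_option autoImplicit false
set_option linter.unusedVariables false
set_option linter.unusedSectionVars false

namespace Pool.Agent.U426.PC

open IsLocalRing Pool.Agent.TH188.QS Pool.Agent.W418.LU2 Pool.Agent.TH188.ARC
  Pool.Agent.U426.PA Pool.Agent.U426.PB

/-- A nonzero minor bounds all the levels. -/
theorem star_hj {R K : Type} [CommRing R] (hR : HJ R) [Field K] (ρ : R →+* K) {T : Set K}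
    (hT : T.Finite) (hfr : ∀ z : K, Fr (Subring.closure ((ρ.range : Set K) ∪ T)) z) :
    ∃ δ ∈ Subring.closure ((ρ.range : Set K) ∪ T), δ ≠ 0 ∧
      Star (Subring.closure ((ρ.range : Set K) ∪ T)) δ := by
  obtain ⟨S, _, _, _, φ, hφr, hwj⟩ := hR K ρ T hT hfr
  rw [← hφr]
  obtain ⟨r, f, D, hf, hgen, hdet⟩ := hwj
  refine ⟨(Matrix.of fun i j => φ (D j (f i))).det, ?_, hdet, ?_⟩
  · refine ⟨(Matrix.of fun i j => D j (f i)).det, ?_⟩
    rw [RingHom.map_det]
    rfl
  · intro V hAV ϖ hϖB hϖ0 hϖ n hn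
    have hφV : ∀ s, φ s ∈ V := fun s => hAV ⟨s, rfl⟩
    have hnoe : IsNoetherianRing φ.range := isNoetherianRing_of_surjective _ _ φ.rangeRestrict
      φ.rangeRestrict_surjective
    obtain ⟨-, hmi⟩ := seq_fg (Q := qseq V φ.range) hAV ⟨ϖ, hϖB, hϖ0, hϖ⟩ rfl (fun n => rfl)
    have hD : ∀ j, Der φ (fun s => φ (D j s)) := fun j =>
      { add := fun a b => by rw [map_add, map_add]
        mul := fun a b => by
          rw [Derivation.leibniz, smul_eq_mul, smul_eq_mul, map_add, map_mul, map_mul] }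
    refine exists_regular_lt (Q := qseq V φ.range) hφV hD (C := 1) one_ne_zero
      (fun j s => by rw [one_mul]; exact hφV _) hf hgen rfl (fun n => rfl) hmi (n := n) ?_
    intro z hz
    rw [one_pow, one_mul]
    exact hn z hz

/-- The ideal attached to a module, and the local rings. -/
theorem concl {K : Type} [Field K] {B : Subring K} [IsNoetherianRing B] {I₀ : Ideal B}
    (hI₀ : I₀ ≠ ⊥) {D : ℕ} {M : Submodule B K}
    (hM : Cm (Submodule.map (Algebra.linearMap B K) I₀) D M) :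
    ∃ I₁ : Ideal B, I₁ ≠ ⊥ ∧ ∀ V : ValuationSubring K, (∀ o : B, algebraMap B K o ∈ V) →
      Lv V M 0 → Dm V (Submodule.map (Algebra.linearMap B K) I₀) M →
      ∃ f ∈ I₀ * I₁, f ≠ 0 ∧
        (∀ a ∈ I₀ * I₁, (a : K) / (f : K) ∈ V) ∧
        IsRegularLocalRing (lo V.toSubring (Pool.Agent.W418.LU2.chart B (I₀ * I₁) f)) := by
  classical
  set M₀ : Submodule B K := Submodule.map (Algebra.linearMap B K) I₀ with hM₀def
  have hM₀ : M₀.FG := Submodule.FG.map _ ((isNoetherianRing_iff_ideal_fg B).1 inferInstance I₀)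
  have hM₀ne : ∃ g ∈ M₀, g ≠ 0 := by
    obtain ⟨a, ha, ha0⟩ := Submodule.exists_mem_ne_zero_of_ne_bot hI₀
    exact ⟨a, ⟨a, ha, rfl⟩, fun h => ha0 (Subtype.ext h)⟩
  have hM₀1 : M₀ ≤ 1 := by
    rintro x ⟨a, ha, rfl⟩
    exact Submodule.mem_one.2 ⟨a, rfl⟩
  have hM1 : ∀ x ∈ M, ∃ b : B, (b : K) = x := fun x hx =>
    Submodule.mem_one.1 (((hM.le.trans (pow_le_pow_left' hM₀1 D)).trans (one_pow D).le) hx)
  let I₁ : Ideal B := M.comap (Algebra.linearMap B K)
  have hI₁ : ∀ b : B, b ∈ I₁ ↔ (b : K) ∈ M := fun b => Iff.rfl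
  refine ⟨I₁, ?_, fun V hOV hlv hdm => ?_⟩
  · obtain ⟨g, hg, hg0⟩ := hM.ne
    obtain ⟨b, rfl⟩ := hM1 g hg
    intro h
    have h1 : b ∈ I₁ := hg
    rw [h, Ideal.mem_bot] at h1
    exact hg0 (by rw [h1]; rfl)
  obtain ⟨g, hg, hg0, hgV, hreg⟩ := hlv.rg
  obtain ⟨b₁, rfl⟩ := hM1 g hg
  obtain ⟨x₀, hx₀, hx₀0⟩ := hM₀ne
  obtain ⟨f₀, hf₀, hf₀0, hf₀V⟩ := exists_gen_max hOV hM₀ hx₀ hx₀0
  obtain ⟨a₀, ha₀, rfl⟩ := hf₀
  change (a₀ : K) ≠ 0 at hf₀0
  change ∀ m ∈ M₀, m / (a₀ : K) ∈ V at hf₀V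
  have hcoe : ((a₀ * b₁ : B) : K) = (a₀ : K) * (b₁ : K) := rfl
  have hf0 : ((a₀ * b₁ : B) : K) ≠ 0 := by
    rw [hcoe]
    exact mul_ne_zero hf₀0 hg0
  -- the local ring
  obtain ⟨Q', hQ', hle⟩ := hdm _ ⟨(a₀ : K), ⟨a₀, ha₀, rfl⟩, hf₀0, hf₀V, rfl⟩
  have hQ'' : LR V M (lo V.toSubring
      (Pool.Agent.H918R2.Quad.chart B M (b₁ : K)).toSubring) := ⟨_, hg, hg0, hgV, rfl⟩
  rw [hQ'.unique hOV hQ''] at hle
  have hkey : ∀ a ∈ I₀ * I₁, (a : K) / ((a₀ * b₁ : B) : K) ∈ lo V.toSubring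
      (Pool.Agent.H918R2.Quad.chart B M (b₁ : K)).toSubring := by
    intro a ha
    refine Submodule.mul_induction_on ha (fun x hx y hy => ?_) fun x y hx hy => ?_
    · have e1 : ((x * y : B) : K) / ((a₀ * b₁ : B) : K) = (x : K) / (a₀ : K) * ((y : K) / (b₁ : K)) := by
        rw [hcoe, div_mul_div_comm]
        rfl
      rw [e1]
      refine Subring.mul_mem _ (hle (le_lo _ _ (Algebra.subset_adjoin ⟨(x : K), ⟨x, hx, rfl⟩, rfl⟩)))
        (le_lo _ _ (Algebra.subset_adjoin ⟨(y : K), hy, rfl⟩))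
    · have e1 : ((x + y : B) : K) / ((a₀ * b₁ : B) : K) =
          (x : K) / ((a₀ * b₁ : B) : K) + (y : K) / ((a₀ * b₁ : B) : K) := by
        rw [← add_div]
        rfl
      rw [e1]
      exact Subring.add_mem _ hx hy
  have hchV := chart_le_V hOV hgV
  refine ⟨a₀ * b₁, Ideal.mul_mem_mul ha₀ hg, fun h => hf0 (by rw [h]; rfl),
    fun a ha => lo_le hchV (hkey a ha), ?_⟩
  have heq : lo V.toSubring (Pool.Agent.W418.LU2.chart B (I₀ * I₁) (a₀ * b₁)) =
      lo V.toSubring (Pool.Agent.H918R2.Quad.chart B M (b₁ : K)).toSubring := by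
    apply le_antisymm
    · refine lo_le_lo hchV ?_
      refine Subring.closure_le.2 ?_
      rintro z (hz | ⟨a, ha, rfl⟩)
      · exact le_lo _ _ ((Pool.Agent.H918R2.Quad.chart B M (b₁ : K)).algebraMap_mem ⟨z, hz⟩)
      · exact hkey a ha
    · refine lo_mono ?_
      have hBC : ∀ b : B, (b : K) ∈ Pool.Agent.W418.LU2.chart B (I₀ * I₁) (a₀ * b₁) := fun b =>
        Subring.subset_closure (Or.inl b.2)
      let C' : Subalgebra B K :=
        { Pool.Agent.W418.LU2.chart B (I₀ * I₁) (a₀ * b₁) with algebraMap_mem' := hBC }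
      have h1 : Pool.Agent.H918R2.Quad.chart B M (b₁ : K) ≤ C' := Algebra.adjoin_le (by
        rintro _ ⟨m, hm, rfl⟩
        obtain ⟨y, rfl⟩ := hM1 m hm
        refine Subring.subset_closure (Or.inr ⟨a₀ * y, Ideal.mul_mem_mul ha₀ hm, ?_⟩)
        change (y : K) / (b₁ : K) = ((a₀ : K) * (y : K)) / ((a₀ : K) * (b₁ : K))
        rw [mul_div_mul_left _ _ hf₀0])
      exact h1
  rw [heq]
  exact hreg

/-- The family of the valuation rings with finite residue field of at most `q` elements such that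
`δ` is not in the `c`-th power of the maximal ideal. -/
def Fq {K : Type} [Field K] (B : Subring K) (δ : K) (q c : ℕ) : Set (ValuationSubring K) :=
  {V | B ≤ V.toSubring ∧ V ≠ ⊤ ∧ Finite (ResidueField V) ∧ Nat.card (ResidueField V) ≤ q ∧
    ∀ x : V, (x : K) = δ → x ∉ maximalIdeal V ^ c}

lemma pow_sub_lt {K : Type} [Field K] {V : ValuationSubring K} (hfin : Finite (ResidueField V))
    {b : K} (hb : b ∈ V) : V.valuation (b ^ Nat.card (ResidueField V) - b) < 1 := by
  have h3 : residue V (⟨b, hb⟩ ^ Nat.card (ResidueField V) - ⟨b, hb⟩) = 0 := by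
    have := Fintype.ofFinite (ResidueField V)
    rw [map_sub, map_pow, Nat.card_eq_fintype_card, FiniteField.pow_card, sub_self]
  rw [residue_eq_zero_iff, V.valuation_lt_one_iff] at h3
  exact h3

lemma char_lt {K : Type} [Field K] {V : ValuationSubring K} (hfin : Finite (ResidueField V))
    {q : ℕ} (hq : Nat.card (ResidueField V) ≤ q) : V.valuation ((q.factorial : ℕ) : K) < 1 := by
  have h1 : residue V (((Nat.card (ResidueField V) : ℕ)) : V) = 0 := by
    rw [map_natCast]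
    have := Fintype.ofFinite (ResidueField V)
    rw [Nat.card_eq_fintype_card]
    exact Nat.cast_card_eq_zero _
  have h2 : residue V ((q.factorial : ℕ) : V) = 0 := by
    obtain ⟨m, hm⟩ := Nat.dvd_factorial (Nat.card_pos (α := ResidueField V)) hq
    rw [hm, Nat.cast_mul, map_mul, h1, zero_mul]
  rw [residue_eq_zero_iff, V.valuation_lt_one_iff] at h2
  have h3 : (((q.factorial : ℕ) : V) : K) = ((q.factorial : ℕ) : K) := by norm_cast
  rw [← h3]
  exact h2

/-- The product of elements of the maximal ideal. -/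
lemma prod_mem_pow {K : Type} [Field K] {V : ValuationSubring K} {δ : K} (hδ : δ ∈ V) {c : ℕ}
    (hc : ∀ x : V, (x : K) = δ → x ∉ maximalIdeal V ^ c) {z : ℕ → K}
    (hz : ∀ i < c, z i ≠ 0 ∧ V.valuation (z i) < 1) :
    δ * (∏ i ∈ Finset.range c, z i)⁻¹ ∉ V := by
  intro hcon
  have key : ∀ n ≤ c, ∃ y : V, (y : K) = ∏ i ∈ Finset.range n, z i ∧ y ∈ maximalIdeal V ^ n := by
    intro n
    induction n with
    | zero => exact fun _ => ⟨1, by simp, by simp⟩
    | succ n ih =>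
      intro hn
      obtain ⟨y, hy, hym⟩ := ih (by omega)
      obtain ⟨h1, h2⟩ := hz n (by omega)
      have h3 : z n ∈ V := (V.valuation_le_one_iff _).1 h2.le
      refine ⟨y * ⟨z n, h3⟩, ?_, ?_⟩
      · rw [Finset.prod_range_succ, ← hy]
        rfl
      · rw [pow_succ]
        exact Ideal.mul_mem_mul hym ((V.valuation_lt_one_iff ⟨z n, h3⟩).2 h2)
  obtain ⟨y, hy, hym⟩ := key c le_rfl
  refine hc (⟨_, hcon⟩ * y) ?_ (Ideal.mul_mem_left _ _ hym)
  change δ * (∏ i ∈ Finset.range c, z i)⁻¹ * (y : K) = δ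
  rw [hy]
  have h0 : ∏ i ∈ Finset.range c, z i ≠ 0 :=
    Finset.prod_ne_zero_iff.2 fun i hi => (hz i (Finset.mem_range.1 hi)).1
  rw [inv_mul_cancel_right₀ h0]

/-- The main theorem. -/
theorem main_arcs (hR : HJ ℤ) {K : Type} [Field K] (ρ : ℤ →+* K) {T : Set K}
    (hT : T.Finite) {B : Subring K} (hB : B = Subring.closure ((ρ.range : Set K) ∪ T))
    (hfr : ∀ z : K, Fr B z) (I₀ : Ideal B) (hI₀ : I₀ ≠ ⊥) :
    ∃ δ : B, δ ≠ 0 ∧ ∀ q c : ℕ, ∃ I₁ : Ideal B, I₁ ≠ ⊥ ∧ ∀ V : ValuationSubring K,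
      B ≤ V.toSubring → V ≠ ⊤ → Finite (ResidueField V) → Nat.card (ResidueField V) ≤ q →
      (∀ x : V, (x : K) = δ → x ∉ maximalIdeal V ^ c) →
      ∃ f ∈ I₀ * I₁, f ≠ 0 ∧
        (∀ a ∈ I₀ * I₁, (a : K) / (f : K) ∈ V) ∧
        IsRegularLocalRing (lo V.toSubring (Pool.Agent.W418.LU2.chart B (I₀ * I₁) f)) := by
  classical
  have hftB : Algebra.FiniteType ℤ B := by
    have h0 : (Algebra.adjoin ℤ T).toSubring = B := by
      rw [hB]
      apply le_antisymm
      · have hall : ∀ x : K, x ∈ Algebra.adjoin ℤ T →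
            x ∈ Subring.closure ((ρ.range : Set K) ∪ T) := by
          intro x hx
          induction hx using Algebra.adjoin_induction with
          | mem x hx => exact Subring.subset_closure (Or.inr hx)
          | algebraMap r =>
            have h1 : algebraMap ℤ K r = ρ r := congrFun (congrArg DFunLike.coe
              (RingHom.ext_int (algebraMap ℤ K) ρ)) r
            rw [h1]
            exact Subring.subset_closure (Or.inl ⟨r, rfl⟩)
          | add x y _ _ hx hy => exact Subring.add_mem _ hx hy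
          | mul x y _ _ hx hy => exact Subring.mul_mem _ hx hy
        exact fun x hx => hall x hx
      · rw [Subring.closure_le]
        rintro x (⟨r, rfl⟩ | hx)
        · have h1 : ρ r = algebraMap ℤ K r := congrFun (congrArg DFunLike.coe
            (RingHom.ext_int ρ (algebraMap ℤ K))) r
          rw [h1]
          exact Subalgebra.algebraMap_mem _ r
        · exact Algebra.subset_adjoin hx
    have h2 : Algebra.FiniteType ℤ (Algebra.adjoin ℤ T) :=
      (Subalgebra.fg_iff_finiteType _).1 (Subalgebra.fg_def.2 ⟨T, hT, rfl⟩)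
    let e : (Algebra.adjoin ℤ T) ≃+* B := RingEquiv.subringCongr h0
    exact h2.of_surjective (e.toRingHom.toIntAlgHom) e.surjective
  have hnoe : IsNoetherianRing B := Algebra.FiniteType.isNoetherianRing ℤ B
  set M₀ : Submodule B K := Submodule.map (Algebra.linearMap B K) I₀ with hM₀def
  have hM₀ : M₀.FG := Submodule.FG.map _ ((isNoetherianRing_iff_ideal_fg B).1 hnoe I₀)
  have hM₀ne : ∃ g ∈ M₀, g ≠ 0 := by
    obtain ⟨a, ha, ha0⟩ := Submodule.exists_mem_ne_zero_of_ne_bot hI₀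
    exact ⟨a, ⟨a, ha, rfl⟩, fun h => ha0 (Subtype.ext h)⟩
  have hM₀1 : M₀ ≤ 1 := by
    rintro x ⟨a, ha, rfl⟩
    exact Submodule.mem_one.2 ⟨a, rfl⟩
  obtain ⟨G, hG⟩ := id hM₀
  have hGM : ∀ j ∈ G, j ∈ M₀ := fun j hj => by rw [← hG]; exact Submodule.subset_span hj
  -- the minors of the charts
  have hj : ∀ j : K, ∃ a : B, a ≠ 0 ∧ (j ∈ G → j ≠ 0 →
      Star (Pool.Agent.H918R2.Quad.chart B M₀ j).toSubring (a : K)) := by
    intro j
    by_cases hjG : j ∈ G ∧ j ≠ 0
    swap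
    · exact ⟨1, one_ne_zero, fun h1 h2 => absurd ⟨h1, h2⟩ hjG⟩
    obtain ⟨hjG, hj0⟩ := hjG
    obtain ⟨N, m, hm⟩ := exists_fin_family hM₀
    let T' : Set K := T ∪ Set.range fun i => m i / j
    have hT' : T'.Finite := hT.union (Set.finite_range _)
    have hch : (Pool.Agent.H918R2.Quad.chart B M₀ j).toSubring =
        Subring.closure ((ρ.range : Set K) ∪ T') := by
      rw [← hm, chart_span, adjoin_toSubring]
      apply le_antisymm
      · rw [Subring.closure_le]
        rintro z (⟨b, rfl⟩ | hz)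
        · have h1 : (b : K) ∈ Subring.closure ((ρ.range : Set K) ∪ T) := hB ▸ b.2
          refine Subring.closure_mono ?_ h1
          rintro w (hw | hw)
          · exact Or.inl hw
          · exact Or.inr (Or.inl hw)
        · exact Subring.subset_closure (Or.inr (Or.inr hz))
      · rw [Subring.closure_le]
        rintro z (hz | hz | hz)
        · refine Subring.subset_closure (Or.inl ⟨⟨z, ?_⟩, rfl⟩)
          rw [hB]
          exact Subring.subset_closure (Or.inl hz)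
        · refine Subring.subset_closure (Or.inl ⟨⟨z, ?_⟩, rfl⟩)
          rw [hB]
          exact Subring.subset_closure (Or.inr hz)
        · exact Subring.subset_closure (Or.inr hz)
    have hle : B ≤ Subring.closure ((ρ.range : Set K) ∪ T') := by
      rw [← hch]
      intro b hb
      exact (Pool.Agent.H918R2.Quad.chart B M₀ j).algebraMap_mem ⟨b, hb⟩
    obtain ⟨δ, hδ, hδ0, hst⟩ := star_hj hR ρ hT' (fun z => by
      obtain ⟨a, ha, b, hb, hb0, h⟩ := hfr z
      exact ⟨a, hle ha, b, hle hb, hb0, h⟩)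
    rw [← hch] at hδ hst
    obtain ⟨k, hk⟩ := chart_pow_mem (hGM j hjG) hj0 (y := δ) hδ
    have h1 := ((pow_le_pow_left' hM₀1 k).trans (one_pow k).le) (hk k le_rfl)
    obtain ⟨a, ha⟩ := Submodule.mem_one.1 h1
    have ha' : (a : K) = δ * j ^ k := ha
    obtain ⟨j', hj'⟩ := Submodule.mem_one.1 (hM₀1 (hGM j hjG))
    have hj'' : (j' : K) = j := hj'
    refine ⟨a, fun h => ?_, fun _ _ => ?_⟩
    · rw [h] at ha'
      exact mul_ne_zero hδ0 (pow_ne_zero _ hj0) ha'.symm
    · refine star_of fun V hV => ⟨δ, hst, ?_⟩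
      rw [ha', map_mul]
      have h2 : j ^ k ∈ V := by
        refine pow_mem ?_ k
        rw [← hj'']
        exact hV ((Pool.Agent.H918R2.Quad.chart B M₀ j).algebraMap_mem j')
      exact mul_le_of_le_one_right' ((V.valuation_le_one_iff _).2 h2)
  choose a ha0 hast using hj
  refine ⟨∏ j ∈ G, a j, Finset.prod_ne_zero_iff.2 fun j _ => ha0 j, fun q c => ?_⟩
  set δ : B := ∏ j ∈ G, a j with hδdef
  have hstar : ∀ j ∈ G, j ≠ 0 → Star (Pool.Agent.H918R2.Quad.chart B M₀ j).toSubring (δ : K) := by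
    intro j hjG hj0
    refine star_of fun V hV => ⟨_, hast j hjG hj0, ?_⟩
    have h1 : (δ : K) = (a j : K) * ((∏ i ∈ G.erase j, a i : B) : K) := by
      rw [hδdef, ← Finset.mul_prod_erase G a hjG]
      rfl
    rw [h1, map_mul]
    exact mul_le_of_le_one_right' ((V.valuation_le_one_iff _).2
      (hV ((Pool.Agent.H918R2.Quad.chart B M₀ j).algebraMap_mem _)))
  set 𝓕 : Set (ValuationSubring K) := Fq B (δ : K) q c with h𝓕def
  have hOV : ∀ V ∈ 𝓕, ∀ o : B, algebraMap B K o ∈ V := fun V hV o => hV.1 o.2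
  have hfam : Fam M₀ 𝓕 := by
    refine ⟨hOV, ?_, ?_⟩
    · rintro V ⟨hBV, hne, -⟩
      obtain ⟨z, hz⟩ : ∃ z : K, z ∉ V := by
        by_contra hcon
        push Not at hcon
        exact hne (eq_top_iff.2 fun z _ => hcon z)
      obtain ⟨a, ha, b, hb, hb0, rfl⟩ := hfr z
      refine ⟨⟨b, hb⟩, hb0, ?_⟩
      by_contra hcon
      apply hz
      have h1 : b⁻¹ ∈ V := by
        by_contra h2
        exact hcon ((val_lt_iff hb0).2 h2)
      exact V.mul_mem _ _ (hBV ha) h1
    · intro V hV D M hM j hj hj0 hMV b hb hbV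
      have hfin := hV.2.2.1
      have hbV' := chart_le_V (hOV V hV) hMV hb
      have hcard : 2 ≤ Nat.card (ResidueField V) := Finite.one_lt_card
      refine ⟨b ^ (Nat.card (ResidueField V) - 2), Subalgebra.pow_mem _ hb _, ?_⟩
      have h1 := pow_sub_lt hfin hbV'
      have h2 : b ^ Nat.card (ResidueField V) - b =
          b * (b * b ^ (Nat.card (ResidueField V) - 2) - 1) := by
        obtain ⟨e, he⟩ := Nat.exists_eq_add_of_le' hcard
        rw [he, Nat.add_sub_cancel]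
        ring
      rw [h2, map_mul] at h1
      have h3 : V.valuation b = 1 := le_antisymm ((V.valuation_le_one_iff _).2 hbV') (not_lt.1 hbV)
      rwa [h3, one_mul] at h1
  have hlev : ∀ V ∈ 𝓕, ∀ n, (∀ z : ℕ → K, (∀ i < n, z i ≠ 0 ∧ V.valuation (z i) < 1) →
      (δ : K) * (∏ i ∈ Finset.range n, z i)⁻¹ ∉ V) → ∀ k, n ≤ k + 1 → Lv V M₀ k := by
    intro V hV n hn k hk
    obtain ⟨x₀, hx₀, hx₀0⟩ := hM₀ne
    obtain ⟨ϖ, hϖ0, hϖ⟩ := hfam.pos V hV
    obtain ⟨j, hjG, hj0, hMV⟩ := exists_gen_max' (hOV V hV) hG hx₀ hx₀0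
    have hBV := chart_le_V (hOV V hV) hMV
    obtain ⟨m, hm, hr⟩ := hstar j hjG hj0 V hBV _
      (Subalgebra.algebraMap_mem (Pool.Agent.H918R2.Quad.chart B M₀ j) ϖ) hϖ0 hϖ n
      fun z hz => hn z fun i hi => (hz i hi).2
    refine ⟨_, ⟨j, hGM j hjG, hj0, hMV, rfl⟩, m, by omega, ?_⟩
    rw [← qseq_eq]
    exact hr
  obtain ⟨D, M, hM, h1, h2⟩ := level_zero' (𝓖 := {V | V.valuation (δ : K) < 1}) hfam
    (fun D M hM => by
      refine (finite_centres' hM.fg hM.ne (Nat.factorial_ne_zero q) q 𝓕 (fun W hW => hOV W hW)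
        (fun W hW => char_lt hW.2.2.1 hW.2.2.2.1) (fun W hW => ?_)).subset ?_
      · have hfin := hW.2.2.1
        exact ⟨Nat.card (ResidueField W), Finite.one_lt_card, hW.2.2.2.1,
          fun b hb => pow_sub_lt hfin hb⟩
      · rintro Q ⟨W, hW, -, hQ⟩
        exact ⟨W, hW, hQ⟩) c (Cm.init hM₀ hM₀ne)
    (fun W hW => hlev W hW c (fun z hz => prod_mem_pow (hW.1 δ.2) hW.2.2.2.2 hz) c (by omega))
    (fun W hW hWδ => hlev W hW 1 (fun z hz hcon => hWδ (by
      obtain ⟨hz0, hzW⟩ := hz 0 Nat.zero_lt_one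
      rw [Finset.prod_range_one] at hcon
      have h1 : (δ : K) = (δ : K) * (z 0)⁻¹ * z 0 := by field_simp
      change W.valuation (δ : K) < 1
      rw [h1, map_mul]
      exact mul_lt_one_aux ((W.valuation_le_one_iff _).2 hcon) hzW)) 0 le_rfl)
  obtain ⟨I₁, hI₁, hall⟩ := concl hI₀ hM
  refine ⟨I₁, hI₁, fun V hBV hne hfin hcard hδc => ?_⟩
  have hV : V ∈ 𝓕 := ⟨hBV, hne, hfin, hcard, hδc⟩
  exact hall V (hOV V hV) (h1 V hV) (h2 V hV)

end Pool.Agent.U426.PC
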